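import Mathlib
import Pool.Agent.MP_a7b5fd_co.X.Final
import Pool.Agent.MP_a7b5fd_co.X.One

set_option autoImplicit false

namespace Pool.Agent.Results.MP_a7b5fd_co.ExactOrder

open Pool.Agent.MP_a7b5fd_co

/-- The largest threshold Prague dimension `T` of a graph on `n` vertices with maximum degree `Δ`
has order `Δ log n / log (Δ + 1)`, with absolute constants, for all `1 ≤ Δ < n`, `n ≥ 3`. -/
theorem result (n Δ : ℕ) (hΔ : 1 ≤ Δ) (hn : Δ < n) (h3 : 3 ≤ n) :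
    ∃ T : ℤ,
      IsGreatest {τ : ℤ | ∃ (G : SimpleGraph (Fin n)) (_ : DecidableRel G.Adj), G.maxDegree = Δ ∧
        IsLeast {t : ℤ | ∃ (d : ℕ) (f : Fin n → Fin d → ℤ),
          ∀ u v, u ≠ v → (G.Adj u v ↔ t ≤ (hammingDist (f u) (f v) : ℤ))} τ} T ∧
      (Δ : ℝ) * Real.log n / (800 * Real.log ((Δ : ℝ) + 1)) ≤ (T : ℝ) ∧
      (T : ℝ) ≤ 24 * 10 ^ 18 * ((Δ : ℝ) * Real.log n / Real.log ((Δ : ℝ) + 1)) := by
  have hΔ0 : (1 : ℝ) ≤ Δ := by exact_mod_cast hΔ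
  have hl : 0 < Real.log ((Δ : ℝ) + 1) := Real.log_pos (by linarith)
  have hln : 0 < Real.log n := Real.log_pos (by exact_mod_cast (by omega : 1 < n))
  have hpos : 0 < 800 * Real.log ((Δ : ℝ) + 1) := by linarith
  obtain ⟨G, inst, hG, h⟩ : ∃ (G : SimpleGraph (Fin n)) (_ : DecidableRel G.Adj),
      G.maxDegree = Δ ∧ ∀ (t : ℤ) (d : ℕ) (f : Fin n → Fin d → ℤ),
        (∀ u v, u ≠ v → (G.Adj u v ↔ t ≤ (hammingDist (f u) (f v) : ℤ))) →
        (Δ : ℝ) * Real.log n ≤ 800 * Real.log ((Δ : ℝ) + 1) * t := by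
    rcases hΔ.eq_or_lt with rfl | h2
    · obtain ⟨G, inst, hG, h⟩ := X.lower_one n h3
      refine ⟨G, inst, hG, fun t d f hf => ?_⟩
      have h1 := h t d f hf
      rw [Nat.cast_one, one_add_one_eq_two]
      linarith
    · obtain ⟨G, inst, hG, h⟩ := H39.lower_bound' n Δ h2 hn
      refine ⟨G, inst, hG, fun t d f hf => ?_⟩
      have h1 := h t d f hf
      have a1 : 0 < Real.log Δ := Real.log_pos (by exact_mod_cast h2)
      have a2 : Real.log Δ ≤ Real.log ((Δ : ℝ) + 1) := Real.log_le_log (by linarith) (by linarith)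
      have a3 : (0 : ℝ) ≤ t := by
        by_contra a
        have a4 := mul_pos (show (0 : ℝ) < Δ by linarith) hln
        nlinarith
      nlinarith
  have hb : ∀ t : ℤ, (∃ (d : ℕ) (f : Fin n → Fin d → ℤ),
      ∀ u v, u ≠ v → (G.Adj u v ↔ t ≤ (hammingDist (f u) (f v) : ℤ))) →
      (Δ : ℝ) * Real.log n / (800 * Real.log ((Δ : ℝ) + 1)) ≤ (t : ℝ) := by
    rintro t ⟨d, f, hf⟩
    rw [div_le_iff₀ hpos, mul_comm (t : ℝ)]
    exact h t d f hf
  obtain ⟨τ, hτ1, hτ2⟩ := Int.exists_least_of_bdd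
    (P := fun t : ℤ => ∃ (d : ℕ) (f : Fin n → Fin d → ℤ),
      ∀ u v, u ≠ v → (G.Adj u v ↔ t ≤ (hammingDist (f u) (f v) : ℤ)))
    ⟨0, fun t ht => by
      have h1 := hb t ht
      have h2 : 0 ≤ (Δ : ℝ) * Real.log n / (800 * Real.log ((Δ : ℝ) + 1)) :=
        div_nonneg (mul_nonneg (Nat.cast_nonneg _) hln.le) hpos.le
      exact_mod_cast h2.trans h1⟩
    (exists_rep G)
  set B : ℝ := 24 * 10 ^ 18 * ((Δ : ℝ) * Real.log n / Real.log ((Δ : ℝ) + 1)) with hB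
  have hup : ∀ τ : ℤ, (∃ (G : SimpleGraph (Fin n)) (_ : DecidableRel G.Adj), G.maxDegree = Δ ∧
      IsLeast {t : ℤ | ∃ (d : ℕ) (f : Fin n → Fin d → ℤ),
        ∀ u v, u ≠ v → (G.Adj u v ↔ t ≤ (hammingDist (f u) (f v) : ℤ))} τ) → (τ : ℝ) ≤ B := by
    rintro τ ⟨G, inst, hG, -, hτ⟩
    have hd : ∀ v, G.degree v ≤ Δ := fun v => hG ▸ G.degree_le_maxDegree v
    obtain ⟨k, hk1, hk2⟩ : ∃ k : ℕ, H39.Cov G (fun u v => u ≠ v ∧ ¬G.Adj u v) k ∧
        (k : ℝ) ≤ 12 * 10 ^ 18 * Δ * (Real.log n / Real.log ((Δ : ℝ) + 1)) := by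
      rcases hΔ.eq_or_lt with rfl | h2
      · obtain ⟨k, hk1, hk2⟩ := X.upper_sharp G (Δ := 2) (fun v => (hd v).trans one_le_two)
          le_rfl h3
        refine ⟨k, hk1, ?_⟩
        rw [Nat.cast_one, one_add_one_eq_two]
        rw [Nat.cast_ofNat] at hk2
        linarith
      · obtain ⟨k, hk1, hk2⟩ := X.upper_sharp G hd h2 hn
        refine ⟨k, hk1, hk2.trans ?_⟩
        have a0 : (2 : ℝ) ≤ Δ := by exact_mod_cast h2
        have a1 : 0 < Real.log Δ := Real.log_pos (by linarith)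
        have a2 : Real.log ((Δ : ℝ) + 1) ≤ 2 * Real.log Δ := by
          rw [two_mul, ← Real.log_mul (by linarith) (by linarith)]
          exact Real.log_le_log (by linarith) (by nlinarith)
        have a3 : Real.log n / Real.log Δ ≤ 2 * (Real.log n / Real.log ((Δ : ℝ) + 1)) := by
          rw [← mul_div_assoc, div_le_div_iff₀ a1 hl]
          nlinarith
        have a4 := mul_le_mul_of_nonneg_left a3 (show (0 : ℝ) ≤ Δ by linarith)
        linarith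
    have h1 : τ ≤ ((2 * k : ℕ) : ℤ) := hτ (H39.rep_of_cov hk1)
    have h2 : (τ : ℝ) ≤ 2 * (k : ℝ) := by exact_mod_cast h1
    rw [hB, mul_div_assoc]
    linarith
  obtain ⟨T, hT1, hT2⟩ := Int.exists_greatest_of_bdd
    (P := fun τ : ℤ => ∃ (G : SimpleGraph (Fin n)) (_ : DecidableRel G.Adj), G.maxDegree = Δ ∧
      IsLeast {t : ℤ | ∃ (d : ℕ) (f : Fin n → Fin d → ℤ),
        ∀ u v, u ≠ v → (G.Adj u v ↔ t ≤ (hammingDist (f u) (f v) : ℤ))} τ)
    ⟨⌊B⌋, fun z hz => Int.le_floor.2 (hup z hz)⟩ ⟨τ, G, inst, hG, hτ1, hτ2⟩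
  refine ⟨T, ⟨hT1, hT2⟩, (hb τ hτ1).trans ?_, hup T hT1⟩
  exact_mod_cast hT2 τ ⟨G, inst, hG, hτ1, hτ2⟩

end Pool.Agent.Results.MP_a7b5fd_co.ExactOrder
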